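import Pool.Agent.H174.GM.Stmts2
import Pool.Agent.H218.GM174.EH1

/-!
# GM MCNT (helper872 for helper174, MP_b6786a_co): Magog residues count walks
-/

set_option autoImplicit false

namespace Pool.Agent.H872.GM174

open Finset Pool.Agent.H174.GM

section supports

variable {k : ℕ}

theorem ge_mul {j : Fin k} {a b : ℤ} {f g : E k} (hf : Ge j a f) (hg : Ge j b g) :
    Ge j (a + b) (f * g) := (Pool.Agent.H218.GM174.eh1 k j a b f g).1 hf hg

theorem ge_add {j : Fin k} {a : ℤ} {f g : E k} (hf : Ge j a f) (hg : Ge j a g) :
    Ge j a (f + g) := (Pool.Agent.H218.GM174.eh1 k j a a f g).2.2.1 hf hg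

theorem ge_neg {j : Fin k} {a : ℤ} {f : E k} (hf : Ge j a f) :
    Ge j a (-f) := (Pool.Agent.H218.GM174.eh1 k j a a f f).2.2.2.2.1 hf

theorem ge_mono {j : Fin k} {a b : ℤ} {f : E k} (hf : Ge j a f) (h : b ≤ a) :
    Ge j b f := (Pool.Agent.H218.GM174.eh1 k j a b f f).2.2.2.2.2.2.1 hf h

theorem ge_one (j : Fin k) : Ge j 0 (1 : E k) := by
  intro γ hγ
  have h1 : (1 : E k) = HahnSeries.single (0 : Ex k) (1 : ℚ) := rfl
  rw [h1, HahnSeries.coeff_single] at hγ
  have h2 : γ = 0 := by
    by_contra h
    exact hγ (if_neg h)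
  rw [h2]
  exact le_rfl

theorem ge_xx (j i : Fin k) : Ge j 0 (xx i : E k) := by
  intro γ hγ
  unfold xx at hγ
  rw [HahnSeries.coeff_single] at hγ
  have h2 : γ = toLex (Pi.single i 1) := by
    by_contra h
    exact hγ (if_neg h)
  rw [h2]
  show (0 : ℤ) ≤ (Pi.single i 1 : Fin k → ℤ) j
  rw [Pi.single_apply]
  split_ifs
  · exact zero_le_one
  · exact le_rfl

theorem ge_xx_self (j : Fin k) : Ge j 1 (xx j : E k) := by
  intro γ hγ
  unfold xx at hγ
  rw [HahnSeries.coeff_single] at hγ
  have h2 : γ = toLex (Pi.single j 1) := by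
    by_contra h
    exact hγ (if_neg h)
  rw [h2]
  show (1 : ℤ) ≤ (Pi.single j 1 : Fin k → ℤ) j
  rw [Pi.single_eq_same]

/-- elements with exponents `≥ 0` -/
def GeRing (k : ℕ) : Subring (E k) where
  carrier := {f | ∀ l, Ge l 0 f}
  mul_mem' := by
    intro f g hf hg l
    have h := ge_mul (hf l) (hg l)
    rwa [add_zero] at h
  one_mem' := fun l => ge_one l
  add_mem' := fun hf hg l => ge_add (hf l) (hg l)
  zero_mem' := by
    intro l γ hγ
    exact absurd (HahnSeries.coeff_zero) hγ
  neg_mem' := fun hf l => ge_neg (hf l)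

theorem mem_GeRing {f : E k} : f ∈ GeRing k ↔ ∀ l, Ge l 0 f := Iff.rfl

theorem xx_mem (i : Fin k) : (xx i : E k) ∈ GeRing k := fun l => ge_xx l i

theorem db_mem : db (xx (k := k)) ∈ GeRing k := by
  unfold db
  apply Subring.mul_mem
  · apply Subring.prod_mem
    intro i _
    apply Subring.sub_mem _ (Subring.one_mem _)
    apply Subring.mul_mem _ _ (xx_mem i)
    have : (2 : E k) = 1 + 1 := by norm_num
    rw [this]
    exact Subring.add_mem _ (Subring.one_mem _) (Subring.one_mem _)
  · apply Subring.prod_mem
    intro p _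
    apply Subring.mul_mem
    · exact Subring.sub_mem _ (xx_mem _) (xx_mem _)
    · exact Subring.sub_mem _ (Subring.sub_mem _ (Subring.one_mem _) (xx_mem _)) (xx_mem _)

theorem ge_pow {j : Fin k} {f : E k} (hf : Ge j 1 f) (n : ℕ) : Ge j n (f ^ n) := by
  induction n with
  | zero =>
    rw [pow_zero]
    exact ge_one j
  | succ n ih =>
    rw [pow_succ, Nat.cast_add, Nat.cast_one]
    exact ge_mul ih hf

theorem NN_add {N : ℕ} {f g : E k} (hf : NN N f) (hg : NN N g) : NN N (f + g) := by
  intro γ hγ
  by_cases h : f.coeff γ = 0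
  · refine hg γ fun h' => hγ ?_
    rw [HahnSeries.coeff_add, h, h', add_zero]
  · exact hf γ h

theorem NN_zero {N : ℕ} : NN N (0 : E k) := fun _ hγ => absurd (HahnSeries.coeff_zero) hγ

theorem NN_neg {N : ℕ} {f : E k} (hf : NN N f) : NN N (-f) := by
  intro γ hγ
  refine hf γ fun h => hγ ?_
  rw [HahnSeries.coeff_neg, h, neg_zero]

theorem NN_sum {N : ℕ} {ι : Type*} (s : Finset ι) (f : ι → E k) (h : ∀ i ∈ s, NN N (f i)) :
    NN N (∑ i ∈ s, f i) := by
  classical
  induction s using Finset.induction_on with
  | empty =>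
    rw [Finset.sum_empty]
    exact NN_zero
  | insert a s ha ih =>
    rw [Finset.sum_insert ha]
    exact NN_add (h a (Finset.mem_insert_self _ _))
      (ih fun i hi => h i (Finset.mem_insert_of_mem hi))

theorem NN_term {N : ℕ} (a : Fin k → ℕ) (i : Fin k) (hi : N ≤ a i) (σ : Equiv.Perm (Fin k)) :
    NN N (∏ l, (xx (σ l) : E k) ^ a l) := by
  have h0 : (∏ l, (xx (σ l) : E k) ^ a l) ∈ GeRing k :=
    Subring.prod_mem _ fun l _ => Subring.pow_mem _ (xx_mem _) _
  have h1 : Ge (σ i) (a i : ℤ) (∏ l, (xx (σ l) : E k) ^ a l) := by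
    rw [← Finset.mul_prod_erase Finset.univ _ (Finset.mem_univ i)]
    have h2 : (∏ l ∈ Finset.univ.erase i, (xx (σ l) : E k) ^ a l) ∈ GeRing k :=
      Subring.prod_mem _ fun l _ => Subring.pow_mem _ (xx_mem _) _
    have h3 := ge_mul (ge_pow (ge_xx_self (σ i)) (a i)) (h2 (σ i))
    rwa [add_zero] at h3
  intro γ hγ
  refine ⟨fun l => h0 l γ hγ, σ i, ?_⟩
  exact le_trans (Nat.cast_le.2 hi) (h1 γ hγ)

theorem NN_vv {N : ℕ} (a : Fin k → ℕ) (i : Fin k) (hi : N ≤ a i) : NN N (vv a (xx (k := k))) := by
  unfold vv
  apply NN_sum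
  intro σ _
  rcases Int.units_eq_one_or (Equiv.Perm.sign σ) with h | h
  · rw [h, Units.val_one, one_smul]
    exact NN_term a i hi σ
  · rw [h, Units.val_neg, Units.val_one, neg_smul, one_smul]
    exact NN_neg (NN_term a i hi σ)

end supports

theorem strictMono_of_succ {k : ℕ} {b : Fin k → ℕ} (h : ∀ i j : Fin k, i.1 + 1 = j.1 → b i < b j) :
    StrictMono b := by
  have key : ∀ (n : ℕ) (i j : Fin k), i.1 + n + 1 = j.1 → b i < b j := by
    intro n
    induction n with
    | zero => exact fun i j hij => h i j hij
    | succ n ih =>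
      intro i j hij
      have hj := j.2
      exact (ih i ⟨i.1 + n + 1, by omega⟩ rfl).trans (h _ j (by
        show i.1 + n + 1 + 1 = j.1
        omega))
  intro i j hij
  rw [Fin.lt_def] at hij
  exact key (j.1 - i.1 - 1) i j (by omega)

theorem strictMono_add {k : ℕ} {b : Fin k → ℕ} (h : StrictMono b) (i j : Fin k) (hij : i ≤ j) :
    b i + (j.1 - i.1) ≤ b j := by
  have key : ∀ (n : ℕ) (i j : Fin k), i.1 + n = j.1 → b i + n ≤ b j := by
    intro n
    induction n with
    | zero =>
      intro i j hij
      have : i = j := Fin.ext hij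
      rw [this]
      exact le_rfl
    | succ n ih =>
      intro i j hij
      have hj := j.2
      have h1 := ih i ⟨i.1 + n, by omega⟩ rfl
      have h2 : b ⟨i.1 + n, by omega⟩ < b j := h (by
        rw [Fin.lt_def]
        show i.1 + n < j.1
        omega)
      omega
  rw [Fin.le_def] at hij
  exact key _ i j (by omega)

open Classical in
theorem mcnt (h1 : S_MREC) (h2 : S_MBD) (h3 : S_MC) (h4 : S_REGN) : S_MCNT := by
  intro k m
  induction m with
  | zero =>
    intro α hk hα
    by_cases h : ∀ i, α i = i.1
    · have e1 : α = fun i => i.1 := funext h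
      have e2 : NM k 0 (fun i => α i - i.1) = 1 := by
        unfold NM
        rw [if_pos]
        funext i
        rw [h i]
        exact Nat.sub_self _
      rw [e2, e1, h3 k, Nat.cast_one, mul_one]
    · rw [not_forall] at h
      obtain ⟨i, hi⟩ := h
      have hi0 : i.1 ≤ α i := by
        have := strictMono_add hα ⟨0, hk⟩ i (by
          rw [Fin.le_def]
          exact Nat.zero_le _)
        have h5 : ((⟨0, hk⟩ : Fin k) : ℕ) = 0 := rfl
        omega
      have hlast : k ≤ α ⟨k - 1, by omega⟩ := by
        have := strictMono_add hα i ⟨k - 1, by omega⟩ (by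
          rw [Fin.le_def]
          show i.1 ≤ k - 1
          have := i.2
          omega)
        have h5 : ((⟨k - 1, by omega⟩ : Fin k) : ℕ) = k - 1 := rfl
        have := i.2
        omega
      have e2 : NM k 0 (fun i => α i - i.1) = 0 := by
        unfold NM
        rw [if_neg]
        intro h
        have := congrFun h i
        omega
      rw [e2, Nat.cast_zero, mul_zero]
      unfold mres
      have h5 := h4 k (0 + k) (vv α (xx (k := k))) (db (xx (k := k)))
        (NN_vv α ⟨k - 1, by omega⟩ (by rw [zero_add]; exact hlast)) db_mem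
      rw [mul_comm (db (xx (k := k)))]
      exact h5
  | succ m ih =>
    intro α hk hα
    have hmono : ∀ i : Fin k, α ⟨0, hk⟩ + i.1 ≤ α i := by
      intro i
      have := strictMono_add hα ⟨0, hk⟩ i (by
        rw [Fin.le_def]
        exact Nat.zero_le _)
      have h5 : ((⟨0, hk⟩ : Fin k) : ℕ) = 0 := rfl
      omega
    by_cases h0 : α ⟨0, hk⟩ = 0
    · rw [h2 k (m + 1) hk α hα h0 (by omega)]
      have e2 : NM k (m + 1) (fun i => α i - i.1) = 0 := by
        unfold NM
        rw [if_neg]
        intro h
        have := h ⟨0, hk⟩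
        dsimp only at this
        rw [h0] at this
        omega
      rw [e2, Nat.cast_zero, mul_zero]
    · rw [h1 k m hk α hα (by omega)]
      have e2 : NM k (m + 1) (fun i => α i - i.1) =
          ∑ b ∈ (Fintype.piFinset fun _ : Fin k => Finset.range (m + 1)).filter
            (fun b => Step b (fun i => α i - i.1)), NM k m b := by
        rw [NM, if_pos]
        intro i
        have := hmono i
        omega
      rw [e2, Nat.cast_sum, Finset.mul_sum]
      have hsm : ∀ b : Fin k → ℕ, ((∀ i, α i ≤ b i + 1) ∧
          ∀ i j : Fin k, i.1 + 1 = j.1 → b i + 2 ≤ α j) → StrictMono b := by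
        intro b hb
        apply strictMono_of_succ
        intro i j hij
        have h5 := hb.2 i j hij
        have h6 := hb.1 j
        omega
      refine Finset.sum_bij' (fun b _ i => b i - i.1) (fun c _ i => c i + i.1) ?_ ?_ ?_ ?_ ?_
      · intro b hb
        rw [Finset.mem_filter, Fintype.mem_piFinset] at hb ⊢
        have hbm := hsm b hb.2
        have hb0 : ∀ i : Fin k, i.1 ≤ b i := by
          intro i
          have := hmono i
          have := hb.2.1 i
          omega
        refine ⟨?_, ?_, ?_⟩
        · intro i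
          rw [Finset.mem_range]
          have h5 := strictMono_add hbm i ⟨k - 1, by omega⟩ (by
            rw [Fin.le_def]
            show i.1 ≤ k - 1
            have := i.2
            omega)
          have h6 := Finset.mem_range.1 (hb.1 ⟨k - 1, by omega⟩)
          have h7 : ((⟨k - 1, by omega⟩ : Fin k) : ℕ) = k - 1 := rfl
          have := i.2
          omega
        · intro i
          have h5 := hb.2.1 i
          have h6 := hb0 i
          dsimp only
          omega
        · intro i j hij
          have h5 := hb.2.2 i j hij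
          have h6 := hb0 i
          dsimp only
          omega
      · intro c hc
        rw [Finset.mem_filter, Fintype.mem_piFinset] at hc ⊢
        refine ⟨?_, ?_, ?_⟩
        · intro i
          rw [Finset.mem_range]
          have h5 := Finset.mem_range.1 (hc.1 i)
          have := i.2
          omega
        · intro i
          have h5 := hc.2.1 i
          dsimp only at h5 ⊢
          omega
        · intro i j hij
          have h5 := hc.2.2 i j hij
          dsimp only at h5 ⊢
          omega
      · intro b hb
        rw [Finset.mem_filter] at hb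
        funext i
        have := hmono i
        have := hb.2.1 i
        dsimp only
        omega
      · intro c hc
        funext i
        dsimp only
        omega
      · intro b hb
        rw [Finset.mem_filter] at hb
        rw [ih b hk (hsm b hb.2)]

end Pool.Agent.H872.GM174
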